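import Pool.Agent.Q283.GrowthTree
import Pool.Agent.Q283.KRows

/-!
# MP_291af2: the tree of standard Young tableaux with at most `k` rows is rigid
-/

namespace Pool.Agent.Results.MP_291af2_co.Rigid

open Pool.Agent.Q283.GrowthTree Pool.Agent.Q283.KRows Finset

/-- A standard Young tableau with at most `k` rows, given as the list of its cells in the order
of their entries (the `m`-th member of the list is the cell with entry `m`; the cell `(i, j)` is
in row `i` and column `j`, counted from `0`): the cells are distinct, lie in the first `k` rows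
and form a Young diagram, and a cell weakly above and weakly left of another one has the smaller
entry. -/
def IsSYT (k : ℕ) (T : List (ℕ × ℕ)) : Prop :=
  T.Nodup ∧ (∀ c ∈ T, c.1 < k) ∧ (∀ c ∈ T, ∀ d : ℕ × ℕ, d.1 ≤ c.1 → d.2 ≤ c.2 → d ∈ T) ∧
    T.Pairwise fun c d => ¬ (d.1 ≤ c.1 ∧ d.2 ≤ c.2)

/-- The tree `𝒯_k`: its vertices are the standard Young tableaux with at most `k` rows, and two
tableaux are joined if one is obtained from the other by deleting the cell with the largest
entry (the last member of the list). -/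
def tree (k : ℕ) : SimpleGraph {T : List (ℕ × ℕ) // IsSYT k T} := graph (IsSYT k)

theorem isSYT_append {k : ℕ} {T : List (ℕ × ℕ)} {c : ℕ × ℕ} :
    IsSYT k (T ++ [c]) ↔ IsSYT k T ∧ c.1 < k ∧ c ∉ T ∧
      ∀ d : ℕ × ℕ, d.1 ≤ c.1 → d.2 ≤ c.2 → d ≠ c → d ∈ T := by
  constructor
  · rintro ⟨h1, h2, h3, h4⟩
    rw [List.pairwise_append] at h4
    have hcT : c ∉ T := fun hc => h4.2.2 c hc c (by simp) ⟨le_rfl, le_rfl⟩
    refine ⟨⟨(List.nodup_append'.mp h1).1, fun d hd => h2 d (by simp [hd]), ?_, h4.1⟩,
      h2 c (by simp), hcT, ?_⟩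
    · intro d hd e he1 he2
      have := h3 d (by simp [hd]) e he1 he2
      rw [List.mem_append, List.mem_singleton] at this
      rcases this with h | h
      · exact h
      · subst h
        exact absurd ⟨he1, he2⟩ (h4.2.2 d hd e (by simp))
    · intro d hd1 hd2 hne
      have := h3 c (by simp) d hd1 hd2
      rw [List.mem_append, List.mem_singleton] at this
      exact this.resolve_right hne
  · rintro ⟨⟨h1, h2, h3, h4⟩, hck, hcT, hlow⟩
    refine ⟨?_, ?_, ?_, ?_⟩
    · rw [List.nodup_append']
      refine ⟨h1, List.nodup_singleton c, ?_⟩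
      intro d hd hd'
      rw [List.mem_singleton] at hd'
      exact hcT (hd' ▸ hd)
    · intro d hd
      rw [List.mem_append, List.mem_singleton] at hd
      rcases hd with h | h
      · exact h2 d h
      · exact h ▸ hck
    · intro d hd e he1 he2
      rw [List.mem_append, List.mem_singleton] at hd ⊢
      rcases hd with h | h
      · exact Or.inl (h3 d h e he1 he2)
      · subst h
        by_cases hec : e = d
        · exact Or.inr hec
        · exact Or.inl (hlow e he1 he2 hec)
    · rw [List.pairwise_append]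
      refine ⟨h4, List.pairwise_singleton _ _, ?_⟩
      intro d hd e he hle
      rw [List.mem_singleton] at he
      subst he
      exact hcT (h3 d hd e hle.1 hle.2)

/-- the length of row `i` -/
def row (T : List (ℕ × ℕ)) (i : ℕ) : ℕ := T.countP fun c => c.1 = i

theorem row_append (T : List (ℕ × ℕ)) (c : ℕ × ℕ) (i : ℕ) :
    row (T ++ [c]) i = row T i + if c.1 = i then 1 else 0 := by
  unfold row
  rw [List.countP_append, List.countP_singleton]
  by_cases h : c.1 = i <;> simp [h]

theorem mem_iff {k : ℕ} (T : List (ℕ × ℕ)) : IsSYT k T → ∀ i j, (i, j) ∈ T ↔ j < row T i := by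
  induction T using List.reverseRecOn with
  | nil =>
    intro _ i j
    simp [row]
  | append_singleton T c ih =>
    intro h i j
    obtain ⟨hT, -, hcT, hlow⟩ := isSYT_append.mp h
    have ih := ih hT
    have hc : c.2 = row T c.1 := by
      have h1 : ¬ c.2 < row T c.1 := fun h => hcT ((ih c.1 c.2).mpr h)
      by_contra hne
      have h2 : row T c.1 < c.2 := by omega
      have h3 := hlow (c.1, row T c.1) le_rfl h2.le (fun he => by
        have := congrArg Prod.snd he
        simp only at this
        omega)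
      exact lt_irrefl _ ((ih _ _).mp h3)
    rw [List.mem_append, List.mem_singleton, row_append, ih]
    by_cases hi : c.1 = i
    · subst hi
      rw [if_pos rfl]
      constructor
      · rintro (h | h)
        · omega
        · have := congrArg Prod.snd h
          simp only at this
          omega
      · intro h
        rcases Nat.lt_succ_iff_lt_or_eq.mp h with h | h
        · exact Or.inl h
        · right
          rw [h, ← hc]
    · rw [if_neg hi, add_zero]
      constructor
      · rintro (h | h)
        · exact h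
        · exact absurd (congrArg Prod.fst h).symm hi
      · exact Or.inl

/-- the shape of a tableau with at most `k` rows -/
def shape (k : ℕ) (T : List (ℕ × ℕ)) : Fin k → ℕ := fun i => row T i

theorem shape_antitone {k : ℕ} {T : List (ℕ × ℕ)} (h : IsSYT k T) : Antitone (shape k T) := by
  intro i j hij
  by_contra hlt
  push Not at hlt
  have h1 := (mem_iff T h j (shape k T i)).mpr hlt
  have h2 := h.2.2.1 _ h1 ((i : ℕ), shape k T i) hij le_rfl
  exact lt_irrefl _ ((mem_iff T h _ _).mp h2)

theorem append_iff {k : ℕ} {T : List (ℕ × ℕ)} (h : IsSYT k T) (c : ℕ × ℕ) :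
    IsSYT k (T ++ [c]) ↔ ∃ i : Fin k, Addable (shape k T) i ∧ c = ((i : ℕ), shape k T i) := by
  rw [isSYT_append]
  constructor
  · rintro ⟨-, hck, hcT, hlow⟩
    have hc : c.2 = row T c.1 := by
      have h1 : ¬ c.2 < row T c.1 := fun h' => hcT ((mem_iff T h c.1 c.2).mpr h')
      by_contra hne
      have h2 : row T c.1 < c.2 := by omega
      have h3 := hlow (c.1, row T c.1) le_rfl h2.le (fun he => by
        have := congrArg Prod.snd he
        simp only at this
        omega)
      exact lt_irrefl _ ((mem_iff T h _ _).mp h3)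
    refine ⟨⟨c.1, hck⟩, ?_, Prod.ext rfl hc⟩
    intro j hj
    have hj' : (j : ℕ) < c.1 := hj
    have h3 := hlow ((j : ℕ), c.2) hj'.le le_rfl (fun he => by
      have := congrArg Prod.fst he
      simp only at this
      omega)
    have h4 := (mem_iff T h _ _).mp h3
    rw [hc] at h4
    exact h4
  · rintro ⟨i, hi, rfl⟩
    refine ⟨h, i.2, ?_, ?_⟩
    · intro hmem
      exact lt_irrefl _ ((mem_iff T h _ _).mp hmem)
    · rintro ⟨d1, d2⟩ hd1 hd2 hne
      simp only at hd1 hd2
      rw [mem_iff T h]
      rcases Nat.lt_or_ge d1 (i : ℕ) with hlt | hge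
      · have := hi ⟨d1, hlt.trans i.2⟩ hlt
        exact lt_of_le_of_lt hd2 this
      · have he : d1 = (i : ℕ) := le_antisymm hd1 hge
        subst he
        refine lt_of_le_of_ne hd2 fun he => hne ?_
        exact Prod.ext rfl he

theorem shape_append {k : ℕ} (T : List (ℕ × ℕ)) (i : Fin k) (x : ℕ) :
    shape k (T ++ [((i : ℕ), x)]) = bump (shape k T) i := by
  funext j
  unfold shape
  rw [row_append]
  by_cases h : j = i
  · subst h
    rw [bump_same]
    simp
  · rw [bump_ne _ h, if_neg (fun h' => h (Fin.ext h'.symm)), add_zero]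

theorem isTree (k : ℕ) : IsTree (IsSYT (k + 1)) where
  nil := by simp [IsSYT]
  init := fun T c h => (isSYT_append.mp h).1
  uniq := by
    intro a b ha hb
    have key : ∀ a : ℕ × ℕ, IsSYT (k + 1) [a] → a = (0, 0) := by
      intro a ha
      have := ha.2.2.1 a (by simp) (0, 0) (Nat.zero_le _) (Nat.zero_le _)
      exact (List.mem_singleton.mp this).symm
    rw [key a ha, key b hb]
  child := fun T h => ⟨_, (append_iff h _).mpr ⟨0, addable_zero _, rfl⟩⟩

theorem sum_shape {k : ℕ} (T : List (ℕ × ℕ)) : IsSYT k T → ∑ i, shape k T i = T.length := by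
  induction T using List.reverseRecOn with
  | nil =>
    intro _
    simp [shape, row]
  | append_singleton T c ih =>
    intro h
    have hT := (isSYT_append.mp h).1
    obtain ⟨i, hi, rfl⟩ := (append_iff hT c).mp h
    rw [shape_append, List.length_append, ← ih hT]
    unfold bump
    rw [Finset.sum_update_of_mem (mem_univ i), ← Finset.add_sum_erase _ _ (mem_univ i)]
    simp only [List.length_singleton, Finset.sdiff_singleton_eq_erase]
    ring

/-- an automorphism maps the child in an addable row to a child -/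
theorem step' {k : ℕ} (φ : tree (k + 1) ≃g tree (k + 1)) (T : {T : List (ℕ × ℕ) // IsSYT (k + 1) T})
    (i : Fin (k + 1)) (h : IsSYT (k + 1) (T.1 ++ [((i : ℕ), shape (k + 1) T.1 i)])) :
    ∃ j : Fin (k + 1), Addable (shape (k + 1) (φ T).1) j ∧
      (φ ⟨T.1 ++ [((i : ℕ), shape (k + 1) T.1 i)], h⟩).1 =
        (φ T).1 ++ [((j : ℕ), shape (k + 1) (φ T).1 j)] := by
  obtain ⟨d, hd0⟩ := map_append (isTree k) φ T.1 _ T.2 h
  have hd : (φ ⟨T.1 ++ [((i : ℕ), shape (k + 1) T.1 i)], h⟩).1 = (φ T).1 ++ [d] := hd0
  have h2 : IsSYT (k + 1) ((φ T).1 ++ [d]) := by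
    have h3 := (φ ⟨T.1 ++ [((i : ℕ), shape (k + 1) T.1 i)], h⟩).2
    rw [hd] at h3
    exact h3
  obtain ⟨j, hj, rfl⟩ := (append_iff (φ T).2 d).mp h2
  exact ⟨j, hj, hd⟩

/-- the relation on shapes induced by the automorphisms -/
def rel (k : ℕ) (f g : Fin (k + 1) → ℕ) : Prop :=
  ∃ (φ : tree (k + 1) ≃g tree (k + 1)) (T : {T : List (ℕ × ℕ) // IsSYT (k + 1) T}),
    shape (k + 1) T.1 = f ∧ shape (k + 1) (φ T).1 = g

theorem rel_symm {k : ℕ} {f g : Fin (k + 1) → ℕ} (h : rel k f g) : rel k g f := by
  obtain ⟨φ, T, h1, h2⟩ := h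
  refine ⟨φ.symm, φ T, h2, ?_⟩
  have : φ.symm (φ T) = T := RelIso.symm_apply_apply φ T
  rw [this]
  exact h1

theorem rel_card_le {k : ℕ} {f g : Fin (k + 1) → ℕ} (h : rel k f g) :
    (addable f).card ≤ (addable g).card := by
  obtain ⟨φ, T, rfl, rfl⟩ := h
  have hex : ∀ i ∈ addable (shape (k + 1) T.1), IsSYT (k + 1)
      (T.1 ++ [((i : ℕ), shape (k + 1) T.1 i)]) := fun i hi =>
    (append_iff T.2 _).mpr ⟨i, mem_addable.mp hi, rfl⟩
  choose! F hF using fun (i : Fin (k + 1)) (hi : i ∈ addable (shape (k + 1) T.1)) =>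
    step' φ T i (hex i hi)
  refine Finset.card_le_card_of_injOn F (fun i hi => mem_addable.mpr (hF i hi).1) ?_
  intro i hi j hj hij
  have h1 := (hF i hi).2
  have h2 := (hF j hj).2
  rw [hij, ← h2] at h1
  have h3 := congrArg Subtype.val (φ.injective (Subtype.ext h1))
  have h4 := (List.append_inj' h3 rfl).2
  simp only [List.cons.injEq, Prod.mk.injEq, and_true] at h4
  exact Fin.ext h4.1

theorem rel_bisim (k : ℕ) : Bisim (k + 1) (rel k) where
  anti := by
    rintro f g ⟨φ, T, rfl, -⟩
    exact shape_antitone T.2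
  symm := fun f g h => rel_symm h
  card := fun f g h => le_antisymm (rel_card_le h) (rel_card_le (rel_symm h))
  step := by
    rintro f g ⟨φ, T, rfl, rfl⟩ i hi
    have h := (append_iff T.2 _).mpr ⟨i, hi, rfl⟩
    obtain ⟨j, hj, hij⟩ := step' φ T i h
    refine ⟨j, hj, φ, ⟨_, h⟩, shape_append _ _ _, ?_⟩
    rw [hij, shape_append]

/-- **The automorphism group of `𝒯_k` is trivial for every `k ≥ 1`.** -/
theorem result (k : ℕ) (hk : 1 ≤ k) (φ : tree k ≃g tree k) : φ = SimpleGraph.Iso.refl := by
  obtain ⟨k, rfl⟩ : ∃ m, k = m + 1 := ⟨k - 1, by omega⟩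
  refine eq_refl_of_shape (isTree k) φ (shape (k + 1)) ?_ ?_
  · intro T c d hc hd hcd
    have hT := (isSYT_append.mp hc).1
    obtain ⟨i, -, rfl⟩ := (append_iff hT c).mp hc
    obtain ⟨j, -, rfl⟩ := (append_iff hT d).mp hd
    rw [shape_append, shape_append] at hcd
    have : i = j := by
      by_contra hne
      have h1 := congrFun hcd i
      rw [bump_same, bump_ne _ hne] at h1
      omega
    rw [this]
  · intro T
    obtain ⟨c, hc⟩ := eq_add_const k (rel k) (rel_bisim k) (shape (k + 1) T.1)
      (shape (k + 1) (φ T).1) ⟨φ, T, rfl, rfl⟩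
    have h1 := sum_shape T.1 T.2
    have h2 := sum_shape (φ T).1 (φ T).2
    have h3 : (φ T).1.length = T.1.length := map_length (isTree k) φ T.1 T.2
    have h4 : ∑ i : Fin (k + 1), ((shape (k + 1) T.1 i : ℤ) - shape (k + 1) (φ T).1 i) =
        (k + 1) * c := by
      rw [Finset.sum_congr rfl fun i _ => hc i]
      simp
    rw [Finset.sum_sub_distrib] at h4
    have h5 : ((∑ i, shape (k + 1) T.1 i : ℕ) : ℤ) = ((∑ i, shape (k + 1) (φ T).1 i : ℕ) : ℤ) := by
      rw [h1, h2, h3]
    push_cast at h5
    have h6 : ((k : ℤ) + 1) * c = 0 := by linarith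
    have h7 : c = 0 := by
      rcases mul_eq_zero.mp h6 with h | h
      · omega
      · exact h
    funext i
    have := hc i
    omega

end Pool.Agent.Results.MP_291af2_co.Rigid
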